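import Pool.Agent.H.MP_2c0ed3_al.Weak

namespace Pool.Agent.Results.MP_2c0ed3_al.Q1

open Pool.Agent.H.MP_2c0ed3_al

theorem result (F : Type) [Field F] :
    ∃ (A : Type) (_ : LieRing A) (_ : LieAlgebra F A),
      (∀ x y : A, ∃ n : ℕ, 1 ≤ n ∧ (rmul F A x ^ n) y = 0) ∧
        ∃ a : A, a ∈ lieRad F A ∧ rmul F A a ∉ assRad (multAlg F A) :=
  ⟨WA F, inferInstance, inferInstance, weak⟩

end Pool.Agent.Results.MP_2c0ed3_al.Q1
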