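import Pool.Agent.H.MP_2c0ed3_al.Strong

namespace Pool.Agent.Results.MP_2c0ed3_al.Q1nil

open Pool.Agent.H.MP_2c0ed3_al

theorem result (F : Type) [Field F] [Countable F] (p : ℕ) [Fact p.Prime] [CharP F p] :
    ∃ (A : Type) (_ : LieRing A) (_ : LieAlgebra F A),
      (∀ x : A, IsNilpotent (rmul F A x)) ∧
        ∃ a : A, a ∈ lieRad F A ∧ rmul F A a ∉ assRad (multAlg F A) :=
  strong F p

end Pool.Agent.Results.MP_2c0ed3_al.Q1nil
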